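import Pool.Agent.Y18.LC.Stm3
import Pool.Agent.Y447.LC.RAM

/-! LC-GLF: automorphisms and the `p`-th roots of unity -/

set_option autoImplicit false
set_option linter.all false

namespace Pool.Agent.Y38.LC

open NumberField IsDedekindDomain Pool.Agent.Y18.LC

/-- the ramification index is one if `q` is unramified -/
theorem ram_one {E : Type} [Field E] [NumberField E] {q : ℕ} (hq : q.Prime) (hU : Unram E q)
    (P : Ideal (𝓞 E)) [P.IsPrime] (hqP : (q : 𝓞 E) ∈ P) : P.ramificationIdx ℤ = 1 := by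
  have hqI : Prime (q : ℤ) := Nat.prime_iff_prime_int.1 hq
  have hunder : P.under ℤ = Ideal.span {(q : ℤ)} := by
    have h1 : Ideal.span {(q : ℤ)} ≤ P.under ℤ := by
      rw [Ideal.span_singleton_le_iff_mem, Ideal.under_def, Ideal.mem_comap]
      simpa using hqP
    have h2 : (Ideal.span {(q : ℤ)}).IsMaximal :=
      PrincipalIdealRing.isMaximal_of_irreducible hqI.irreducible
    exact (h2.eq_of_le (Ideal.IsPrime.ne_top inferInstance) h1).symm
  have hne : P.under ℤ ≠ ⊥ := by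
    rw [hunder, Ne, Ideal.span_singleton_eq_bot]
    exact hqI.ne_zero
  have hmap : (P.under ℤ).map (algebraMap ℤ (𝓞 E)) = Ideal.span {(q : 𝓞 E)} := by
    rw [hunder, Ideal.map_span, Set.image_singleton]
    simp
  rw [← Ideal.ramificationIdx'_eq_ramificationIdx (P.under ℤ) P hne]
  by_contra hcon
  have hle : (P.under ℤ).map (algebraMap ℤ (𝓞 E)) ≤ P := Ideal.map_comap_le
  rw [← Ne, Ideal.ramificationIdx'_ne_one_iff hle, hmap, ← Ideal.dvd_iff_le] at hcon
  obtain ⟨J, hJ⟩ := hcon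
  have hq0 : Ideal.span {(q : 𝓞 E)} ≠ ⊥ := by
    rw [Ne, Ideal.span_singleton_eq_bot]
    exact_mod_cast hq.ne_zero
  have hPJ0 : P * J ≠ 0 := by
    intro h
    apply hq0
    rw [hJ, pow_two, mul_assoc, h, mul_zero]
    rfl
  have h3 : P * J ≤ Ideal.span {(q : 𝓞 E)} := by
    intro x hx
    apply hU
    refine ⟨2, ?_⟩
    have h4 : x ^ 2 ∈ (P * J) ^ 2 := Ideal.pow_mem_pow hx 2
    have h5 : (P * J) ^ 2 ≤ Ideal.span {(q : 𝓞 E)} := by
      rw [hJ, mul_pow, pow_two J, ← mul_assoc]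
      exact Ideal.mul_le_left (I := P ^ 2 * J) (J := J)
    exact h5 h4
  rw [← Ideal.dvd_iff_le, hJ, pow_two, mul_assoc] at h3
  obtain ⟨I, hI⟩ := h3
  have h6 : P * J * 1 = P * J * (P * I) := by
    rw [mul_one]
    calc P * J = P * (P * J) * I := hI
      _ = P * J * (P * I) := by ring
  have h7 := mul_left_cancel₀ hPJ0 h6
  have h8 : P ∣ 1 := ⟨I, h7⟩
  rw [Ideal.dvd_iff_le, Ideal.one_eq_top, top_le_iff] at h8
  exact Ideal.IsPrime.ne_top inferInstance h8

section

variable {E : Type} [Field E] [NumberField E] [IsGalois ℚ E]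

theorem gal_top (k : Type) [Field k] [NumberField k] [Algebra k E] : IsGalois k E :=
  IsGalois.tower_top_of_isGalois ℚ k E

/-- inertia groups over a subfield -/
noncomputable def inrMap (k : Type) [Field k] [NumberField k] [Algebra k E] (P : Ideal (𝓞 E)) :
    P.inertia (E ≃ₐ[k] E) → P.inertia (E ≃ₐ[ℚ] E) :=
  fun g => ⟨(g : E ≃ₐ[k] E).restrictScalars ℚ, fun x => g.2 x⟩

theorem inrMap_apply (k : Type) [Field k] [NumberField k] [Algebra k E] (P : Ideal (𝓞 E))
    (g : P.inertia (E ≃ₐ[k] E)) (x : E) :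
    ((inrMap k P g : P.inertia (E ≃ₐ[ℚ] E)) : E ≃ₐ[ℚ] E) x = (g : E ≃ₐ[k] E) x := rfl

theorem inrMap_inj (k : Type) [Field k] [NumberField k] [Algebra k E] (P : Ideal (𝓞 E)) :
    Function.Injective (inrMap k P) := by
  intro g h hgh
  apply Subtype.ext
  ext x
  have h1 := inrMap_apply k P g x
  have h2 := inrMap_apply k P h x
  rw [← h1, hgh, h2]

theorem card_mul (k : Type) [Field k] [NumberField k] [Algebra k E] (P : Ideal (𝓞 E))
    [P.IsPrime] : Nat.card (P.inertia (E ≃ₐ[ℚ] E)) =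
      (P.under (𝓞 k)).ramificationIdx ℤ * Nat.card (P.inertia (E ≃ₐ[k] E)) := by
  haveI := gal_top (E := E) k
  rw [Pool.Agent.Y447.LC.card_in' P, Pool.Agent.Y447.LC.card_in (K := k) P]
  exact Ideal.ramificationIdx_tower (P.under (𝓞 k)) P

/-- the inertia group fixes the subfields in which `p` is unramified -/
theorem inertia_fix {p : ℕ} (hp : p.Prime) (P : Ideal (𝓞 E)) [P.IsPrime] (hpP : (p : 𝓞 E) ∈ P)
    (k : Type) [Field k] [NumberField k] [Algebra k E] (hU : Unram k p)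
    (σ : P.inertia (E ≃ₐ[ℚ] E)) (x : k) :
    (σ : E ≃ₐ[ℚ] E) (algebraMap k E x) = algebraMap k E x := by
  have hprime : (P.under (𝓞 k)).IsPrime := Ideal.comap_isPrime _ _
  have hmem : (p : 𝓞 k) ∈ P.under (𝓞 k) := by
    rw [Ideal.under_def, Ideal.mem_comap]
    simpa using hpP
  have h1 := card_mul k P
  rw [ram_one hp hU (P.under (𝓞 k)) hmem, one_mul] at h1
  have hbij : Function.Bijective (inrMap k P) :=
    (inrMap_inj k P).bijective_of_nat_card_le (le_of_eq h1)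
  obtain ⟨g, rfl⟩ := hbij.2 σ
  rw [inrMap_apply]
  exact (g : E ≃ₐ[k] E).commutes x

/-- restriction of the inertia group to the cyclotomic field is onto -/
theorem inertia_cyc {p : ℕ} (hp : p.Prime) (P : Ideal (𝓞 E)) [P.IsPrime] (hpP : (p : 𝓞 E) ∈ P)
    (M : Type) [Field M] [NumberField M] [IsCyclotomicExtension {p} ℚ M] [Algebra M E]
    (γ : E ≃ₐ[ℚ] E) : ∃ σ : P.inertia (E ≃ₐ[ℚ] E), ∀ m : M,
      (σ : E ≃ₐ[ℚ] E) (algebraMap M E m) = γ (algebraMap M E m) := by
  haveI : Fact p.Prime := ⟨hp⟩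
  haveI : NeZero p := ⟨hp.ne_zero⟩
  haveI : IsGalois ℚ M := IsCyclotomicExtension.isGalois {p} ℚ M
  have hprime : (P.under (𝓞 M)).IsPrime := Ideal.comap_isPrime _ _
  have hmem : (p : 𝓞 M) ∈ P.under (𝓞 M) := by
    rw [Ideal.under_def, Ideal.mem_comap]
    simpa using hpP
  have hover : (P.under (𝓞 M)).LiesOver (Ideal.span {(p : ℤ)}) := by
    constructor
    have h1 : Ideal.span {(p : ℤ)} ≤ (P.under (𝓞 M)).under ℤ := by
      rw [Ideal.span_singleton_le_iff_mem, Ideal.under_def, Ideal.mem_comap]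
      simpa using hmem
    have hqI : Prime (p : ℤ) := Nat.prime_iff_prime_int.1 hp
    have h2 : (Ideal.span {(p : ℤ)}).IsMaximal :=
      PrincipalIdealRing.isMaximal_of_irreducible hqI.irreducible
    have h3 : ((P.under (𝓞 M)).under ℤ).IsPrime := Ideal.comap_isPrime _ _
    exact h2.eq_of_le (Ideal.IsPrime.ne_top h3) h1
  have hram : (P.under (𝓞 M)).ramificationIdx ℤ = p - 1 :=
    IsCyclotomicExtension.Rat.ramificationIdx_eq_of_prime p M (P.under (𝓞 M))
  have h1 := card_mul M P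
  rw [hram] at h1
  -- the restriction
  let r : P.inertia (E ≃ₐ[ℚ] E) →* (M ≃ₐ[ℚ] M) :=
    (AlgEquiv.restrictNormalHom M).comp (P.inertia (E ≃ₐ[ℚ] E)).subtype
  have hr : ∀ (σ : P.inertia (E ≃ₐ[ℚ] E)) (m : M),
      algebraMap M E (r σ m) = (σ : E ≃ₐ[ℚ] E) (algebraMap M E m) := fun σ m =>
    AlgEquiv.restrictNormal_commutes (σ : E ≃ₐ[ℚ] E) M m
  -- the kernel
  let κ : r.ker → P.inertia (E ≃ₐ[M] E) := fun σ =>
    ⟨AlgEquiv.ofRingEquiv (f := ((σ : P.inertia (E ≃ₐ[ℚ] E)) : E ≃ₐ[ℚ] E).toRingEquiv)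
      (fun m => by
        have h2 := hr (σ : P.inertia (E ≃ₐ[ℚ] E)) m
        have h3 : r (σ : P.inertia (E ≃ₐ[ℚ] E)) = 1 := σ.2
        rw [h3] at h2
        exact h2.symm), fun x => (σ : P.inertia (E ≃ₐ[ℚ] E)).2 x⟩
  have hκ : Function.Injective κ := by
    intro a b hab
    apply Subtype.ext
    apply Subtype.ext
    ext x
    have h2 := congrArg (fun t : P.inertia (E ≃ₐ[M] E) => (t : E ≃ₐ[M] E) x) hab
    exact h2
  have hkc : Nat.card r.ker ≤ Nat.card (P.inertia (E ≃ₐ[M] E)) :=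
    Nat.card_le_card_of_injective κ hκ
  have hidx : Nat.card r.range * Nat.card r.ker = Nat.card (P.inertia (E ≃ₐ[ℚ] E)) := by
    rw [← Subgroup.index_ker]
    exact Subgroup.index_mul_card _
  have hkpos : 0 < Nat.card r.ker := Nat.card_pos
  have hle : p - 1 ≤ Nat.card r.range := by
    have h4 : (p - 1) * Nat.card r.ker ≤ Nat.card r.range * Nat.card r.ker := by
      rw [hidx, h1]
      exact Nat.mul_le_mul_left _ hkc
    exact Nat.le_of_mul_le_mul_right h4 hkpos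
  have hG : Nat.card (M ≃ₐ[ℚ] M) = p - 1 := by
    rw [IsGalois.card_aut_eq_finrank, IsCyclotomicExtension.finrank M
      (Polynomial.cyclotomic.irreducible_rat hp.pos), Nat.totient_prime hp]
  have htop : r.range = ⊤ := Subgroup.eq_top_of_le_card _ (by rw [hG]; exact hle)
  have hmemr : AlgEquiv.restrictNormal γ M ∈ r.range := by
    rw [htop]
    trivial
  obtain ⟨σ, hσ⟩ := hmemr
  refine ⟨σ, fun m => ?_⟩
  rw [← hr, hσ]
  exact AlgEquiv.restrictNormal_commutes γ M m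

theorem exists_sigma {p : ℕ} (hp : p.Prime) (M : Type) [Field M] [NumberField M]
    [IsCyclotomicExtension {p} ℚ M] (j : M →+* E) (γ : E ≃+* E) :
    ∃ σ : E ≃+* E, (∀ m, σ (j m) = γ (j m)) ∧
      ∀ (k : Type) [Field k] [NumberField k], Unram k p → ∀ (τ : k →+* E) (x : k),
        σ (τ x) = τ x := by
  have hqI : Prime (p : ℤ) := Nat.prime_iff_prime_int.1 hp
  haveI h2 : (Ideal.span {(p : ℤ)}).IsMaximal :=
    PrincipalIdealRing.isMaximal_of_irreducible hqI.irreducible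
  obtain ⟨⟨P, hP, hPv⟩⟩ : Nonempty ((Ideal.span {(p : ℤ)}).primesOver (𝓞 E)) := inferInstance
  have hpP : (p : 𝓞 E) ∈ P := by
    have h1 : (p : ℤ) ∈ P.under ℤ := by
      rw [← hPv.over]
      exact Ideal.mem_span_singleton_self _
    rw [Ideal.under_def, Ideal.mem_comap] at h1
    simpa using h1
  letI : Algebra M E := j.toAlgebra
  obtain ⟨σ, hσ⟩ := inertia_cyc hp P hpP M
    (AlgEquiv.ofRingEquiv (f := γ) fun r => by rw [eq_ratCast, map_ratCast])
  refine ⟨(σ : E ≃ₐ[ℚ] E).toRingEquiv, fun m => hσ m, ?_⟩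
  intro k _ _ hU τ x
  letI : Algebra k E := τ.toAlgebra
  exact inertia_fix hp P hpP k hU σ x

end

theorem cyc_inst (p : ℕ) [NeZero p] : @IsCyclotomicExtension {p} ℚ (CyclotomicField p ℚ) _ _
    DivisionRing.toRatAlgebra := by
  have h1 : (CyclotomicField.algebra p ℚ : Algebra ℚ (CyclotomicField p ℚ)) =
    DivisionRing.toRatAlgebra := Subsingleton.elim _ _
  rw [← h1]
  haveI : NeZero ((p : ℕ) : ℚ) := NeZero.charZero
  exact CyclotomicField.isCyclotomicExtension p ℚ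

theorem glf_aux (Ω : Type) [Field Ω] [CharZero Ω] [IsAlgClosed Ω] [Algebra.IsAlgebraic ℚ Ω]
    (k M : Type) [Field k] [NumberField k] [Field M] [NumberField M] (p : ℕ) (hp : p.Prime)
    [IsCyclotomicExtension {p} ℚ M] (hU : Unram k p) (g : Ω ≃+* Ω) :
    ∃ g' : Ω ≃+* Ω, (∀ (τ : k →+* Ω) (x : k), g' (τ x) = g (τ x)) ∧
      ∀ ζ : Ω, ζ ^ p = 1 → g' ζ = ζ := by
  haveI : NeZero p := ⟨hp.ne_zero⟩
  haveI : IsAlgClosure ℚ Ω := ⟨inferInstance, inferInstance⟩
  haveI : Normal ℚ Ω := IsAlgClosure.normal ℚ Ω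
  let L : IntermediateField ℚ Ω :=
    IntermediateField.normalClosure ℚ k Ω ⊔ IntermediateField.normalClosure ℚ M Ω
  haveI hnorm1 : @Normal ℚ (IntermediateField.normalClosure ℚ k Ω) _ _
    (IntermediateField.algebra' _) := normalClosure.normal ℚ k Ω
  haveI hnorm2 : @Normal ℚ (IntermediateField.normalClosure ℚ M Ω) _ _
    (IntermediateField.algebra' _) := normalClosure.normal ℚ M Ω
  haveI hnorm : @Normal ℚ L _ _ (IntermediateField.algebra' L) :=
    @IntermediateField.normal_sup ℚ Ω _ _ _ _ _ hnorm1 hnorm2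
  haveI hfin : @FiniteDimensional ℚ L _ _ (IntermediateField.algebra' L).toModule :=
    IntermediateField.finiteDimensional_sup _ _
  haveI hgal : @IsGalois ℚ _ L _ (IntermediateField.algebra' L) :=
    @IsGalois.mk ℚ _ L _ (IntermediateField.algebra' L) inferInstance hnorm
  have halg : (IntermediateField.algebra' L : Algebra ℚ L) = DivisionRing.toRatAlgebra :=
    Subsingleton.elim _ _
  haveI : NumberField L :=
    { to_charZero := inferInstance
      to_finiteDimensional := by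
        rw [← halg]
        exact hfin }
  have hgal' : @IsGalois ℚ _ L _ DivisionRing.toRatAlgebra := by
    rw [← halg]
    exact hgal
  -- embeddings into `L`
  have hkL : ∀ (τ : k →+* Ω) (x : k), τ x ∈ L := by
    intro τ x
    have h1 : τ.toRatAlgHom.fieldRange ≤ L :=
      (AlgHom.fieldRange_le_normalClosure _).trans le_sup_left
    exact h1 ⟨x, rfl⟩
  have hML : ∀ (τ : M →+* Ω) (x : M), τ x ∈ L := by
    intro τ x
    have h1 : τ.toRatAlgHom.fieldRange ≤ L :=
      (AlgHom.fieldRange_le_normalClosure _).trans le_sup_right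
    exact h1 ⟨x, rfl⟩
  obtain ⟨τ₀⟩ : Nonempty (M →ₐ[ℚ] Ω) := ⟨IsAlgClosed.lift⟩
  let j : M →+* L := (τ₀ : M →+* Ω).codRestrict L.toSubfield (fun x => hML _ x)
  let gA : Ω ≃ₐ[ℚ] Ω := AlgEquiv.ofRingEquiv (f := g.symm)
    (fun r => by rw [eq_ratCast, map_ratCast])
  let γ : L ≃+* L := (AlgEquiv.restrictNormal gA L).toRingEquiv
  have hγ : ∀ x : L, ((γ x : L) : Ω) = g.symm x := fun x =>
    AlgEquiv.restrictNormal_commutes gA L x
  obtain ⟨σ, hσM, hσk⟩ := @exists_sigma L _ _ hgal' p hp M _ _ _ j γ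
  let σA : L ≃ₐ[ℚ] L := AlgEquiv.ofRingEquiv (f := σ) (fun r => by
    rw [eq_ratCast, map_ratCast])
  let σt : Ω ≃ₐ[ℚ] Ω := σA.liftNormal Ω
  have hσt : ∀ x : L, σt (x : Ω) = ((σ x : L) : Ω) := fun x =>
    AlgEquiv.liftNormal_commutes σA Ω x
  refine ⟨σt.toRingEquiv.trans g, ?_, ?_⟩
  · intro τ x
    show g (σt (τ x)) = g (τ x)
    congr 1
    let τL : k →+* L := τ.codRestrict L.toSubfield (fun x => hkL τ x)
    have h1 := hσt (τL x)
    rw [hσk k hU τL x] at h1
    exact h1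
  · intro ζ hζ
    show g (σt ζ) = ζ
    have hz := IsCyclotomicExtension.zeta_spec p ℚ M
    have hz' : IsPrimitiveRoot (τ₀ (IsCyclotomicExtension.zeta p ℚ M)) p :=
      hz.map_of_injective τ₀.injective
    obtain ⟨i, -, hi⟩ := hz'.eq_pow_of_pow_eq_one hζ
    have h2 : ζ = ((j (IsCyclotomicExtension.zeta p ℚ M ^ i) : L) : Ω) := by
      rw [← hi, ← map_pow]
      rfl
    rw [h2, hσt, hσM, hγ, RingEquiv.apply_symm_apply]

theorem glf : GLF := by
  intro k _ _ p hp hU g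
  haveI : NeZero p := ⟨hp.ne_zero⟩
  haveI h1 := cyc_inst p
  haveI h2 : @Algebra.IsAlgebraic ℚ (AlgebraicClosure ℚ) _ _ DivisionRing.toRatAlgebra := by
    have h3 : (AlgebraicClosure.instAlgebra ℚ : Algebra ℚ (AlgebraicClosure ℚ)) =
      DivisionRing.toRatAlgebra := Subsingleton.elim _ _
    rw [← h3]
    exact AlgebraicClosure.isAlgebraic ℚ
  exact @glf_aux (AlgebraicClosure ℚ) _ _ _ h2 k (CyclotomicField p ℚ) _ _ _ _ p hp h1 hU g

end Pool.Agent.Y38.LC
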